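import Pool.Agent.Lib.MP_cb3775_ag.Main

/-!
# MP_cb3775_ag: the Andre-Oort conjecture for variations of mixed Hodge structure with constant graded pieces of Tate type

`S` is a smooth irreducible complex variety in the form of an etale hypersurface (every such variety
has a dense Zariski open subset of this form), `V` an admissible variation of mixed Hodge structure
on `S` whose graded pieces are constant of Tate type. If the CM points of `V` are Zariski dense, then
the variation is given by algebraically independent units `y_1, .., y_r` on `S` and commuting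
nilpotent matrices `M_1, .., M_r` of type `(-1,-1)`: locally on `S` the period map is
`C exp (sum l_j M_j)`, `e (l_j) = y_j`, with one rational matrix `C`. The generic Mumford-Tate group is
the semidirect product of `G_a^r` (of type `(-1,-1)`) with a torus, the period map `S -> (C^*)^r` is
dominant, and the CM points are the points where all the `y_j` are roots of unity.
-/

set_option autoImplicit false

namespace Pool.Agent.Results.MP_cb3775_ag.HodgeTate

open _root_.MP_cb3775_ag Filter Topology

theorem result {n N : ℕ} (B : Base n) (V : Variation B N) (hadm : V.Admissible)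
    (hCM : B.ZDense {s | s ∈ B.pts ∧ V.IsCM s}) :
    ∃ (r : ℕ) (y : Fin r → Pt n → ℂ) (M : Fin r → Matrix (Fin N) (Fin N) ℤ),
      (∀ j, B.IsRational (y j) ∧ ∀ s ∈ B.pts, B.HolAt (y j) s ∧ y j s ≠ 0) ∧
      B.AlgIndep y ∧
      LinearIndependent ℤ M ∧ (∀ j a b, M j a b ≠ 0 → V.p a = V.p b - 1) ∧
      (∀ j k, M j * M k = M k * M j) ∧
      (∀ s ∈ B.pts, V.IsCM s ↔ ∀ j, ∃ k : ℕ, 0 < k ∧ y j s ^ k = 1) ∧
      ∀ i, ∀ s ∈ V.U i ∩ B.pts, ∀ l : Fin r → Pt n → ℂ, (∀ j, B.HolAt (l j) s) →
        (∀ᶠ t in 𝓝[B.pts] s, ∀ j, e (l j t) = y j t) →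
        ∃ C : Matrix (Fin N) (Fin N) ℚ, IsUnip V.p C ∧ ∀ᶠ t in 𝓝[B.pts] s,
          (∀ k, V.F i k t = Submodule.span ℂ {v | ∃ a, k ≤ V.p a ∧
            v = (qc C * NormedSpace.exp (∑ j, l j t • zc (M j))).mulVec (Pi.single a 1)}) ∧
          ((∀ v : Fin r → ℤ, v ≠ 0 → ∀ m : ℕ, 0 < m → (∏ j, y j t ^ v j) ^ m ≠ 1) →
            V.MT i t = {A | ∃ (c : Fin r → ℂ) (z : ℂ), z ≠ 0 ∧
              A = qc C * (NormedSpace.exp (∑ j, c j • zc (M j)) *
                Matrix.diagonal fun a => z ^ (-V.p a)) * (qc C)⁻¹}) :=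
  _root_.MP_cb3775_ag.main B V hadm hCM

end Pool.Agent.Results.MP_cb3775_ag.HodgeTate
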